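import Mathlib

namespace Pool.Agent.Results.MP_1bbe3d_pr.Counter

open Real Finset

/-- `u(t) = τ + β (t - τ)` -/
def u (τ β t : ℝ) : ℝ := τ + β * (t - τ)

/-- the log-likelihood; `s` are the failure times at the first level, `t` at the second -/
noncomputable def l (n : ℕ) (τ η : ℝ) {n₁ n₂ : ℕ} (s : Fin n₁ → ℝ) (t : Fin n₂ → ℝ)
    (α θ β : ℝ) : ℝ :=
  ((n₁ + n₂ : ℕ) : ℝ) * log α + n₂ * log β - ((n₁ + n₂ : ℕ) : ℝ) * α * log θ
    + (α - 1) * (∑ i, log (s i) + ∑ i, log (u τ β (t i)))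
    - θ ^ (-α) * (∑ i, s i ^ α + ∑ i, u τ β (t i) ^ α
        + ((n : ℝ) - ((n₁ + n₂ : ℕ) : ℝ)) * u τ β η ^ α)

/-- one summand in shifted coordinates -/
noncomputable def g (α σ y : ℝ) : ℝ :=
  log α - log y + α * (log y - log σ) - exp (α * (log y - log σ))

noncomputable def t0 : Fin 3 → ℝ := ![1 + exp (-40), 2, 3]

theorem l_eq {α θ β : ℝ} (hθ : 0 < θ) (hβ : 0 < β) :
    l 3 1 3 (Fin.elim0 : Fin 0 → ℝ) t0 α θ β =
      g α (θ / β) (1 / β + exp (-40)) + g α (θ / β) (1 / β + 1) + g α (θ / β) (1 / β + 2) := by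
  have key : ∀ x : ℝ, 0 < x → log (u 1 β (1 + x)) = log β + log (1 / β + x) ∧
      θ ^ (-α) * u 1 β (1 + x) ^ α = exp (α * (log (1 / β + x) - log (θ / β))) := by
    intro x hx
    have e : u 1 β (1 + x) = β * (1 / β + x) := by unfold u; field_simp; ring
    have h1 : log (u 1 β (1 + x)) = log β + log (1 / β + x) := by
      rw [e, log_mul hβ.ne' (by positivity)]
    refine ⟨h1, ?_⟩
    rw [rpow_def_of_pos hθ, rpow_def_of_pos (by rw [e]; positivity), ← exp_add, h1,
      log_div hθ.ne' hβ.ne']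
    congr 1; ring
  obtain ⟨a1, b1⟩ := key _ (exp_pos (-40))
  obtain ⟨a2, b2⟩ := key 1 one_pos
  obtain ⟨a3, b3⟩ := key 2 two_pos
  rw [show (1 : ℝ) + 1 = 2 by norm_num] at a2 b2
  rw [show (1 : ℝ) + 2 = 3 by norm_num] at a3 b3
  simp only [l, g, t0, univ_eq_empty, sum_empty, Fin.sum_univ_three, Matrix.cons_val, a1, a2, a3,
    ← b1, ← b2, ← b3]
  rw [log_div hθ.ne' hβ.ne']
  push_cast
  ring

theorem mono {α σ y y' : ℝ} (h0 : 0 < α) (h1 : α ≤ 1) (hy : 0 < y) (h : y < y') :
    g α σ y' < g α σ y := by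
  have h2 := log_lt_log hy h
  have h3 : exp (α * (log y - log σ)) < exp (α * (log y' - log σ)) :=
    exp_lt_exp.2 (by nlinarith)
  unfold g
  nlinarith

theorem big {α σ s : ℝ} (h1 : 1 ≤ α) (hs : 0 < s) :
    g α σ (s + exp (-40)) + g α σ (s + 1) + g α σ (s + 2) ≤ 6 := by
  have e1 : exp (-40 : ℝ) ≤ 1 := exp_le_one_iff.2 (by norm_num)
  have e0 := exp_pos (-40)
  have l1 : log (s + exp (-40)) ≤ log (s + 1) := log_le_log (by positivity) (by linarith)
  have l2 : log (s + 1) - log (s + 2) ≤ -(1 / (s + 2)) := by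
    rw [← log_div (by positivity) (by positivity)]
    refine (log_le_sub_one_of_pos (by positivity)).trans (le_of_eq ?_)
    field_simp; ring
  have l3 : log (s + 2) - log (s + 1) ≤ 1 := by
    rw [← log_div (by positivity) (by positivity)]
    refine (log_le_sub_one_of_pos (by positivity)).trans ?_
    rw [div_sub_one (by positivity), div_le_one (by positivity)]
    linarith
  have l4 : log α - log (s + 2) ≤ α / (s + 2) * (2 / 3) := by
    rw [← log_div (by positivity) (by positivity)]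
    have h := log_le_sub_one_of_pos (show 0 < α / (s + 2) / 2 by positivity)
    rw [log_div (by positivity) (by norm_num)] at h
    have : 0 < α / (s + 2) := by positivity
    linarith [log_two_lt_d9]
  have l5 : ∀ a : ℝ, 3 * a - exp a ≤ 3 := fun a => by
    have h := add_one_le_exp (a / 2)
    have : exp a = exp (a / 2) * exp (a / 2) := by rw [← exp_add]; congr 1; ring
    by_cases ha : a ≤ 0
    · linarith [exp_pos a]
    · nlinarith [sq_nonneg (a - 4)]
  have l6 := l5 (α * (log (s + 2) - log σ))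
  have l7 : α * (log (s + 1) - log (s + 2)) ≤ -(α / (s + 2)) := by
    have := mul_le_mul_of_nonneg_left l2 (show 0 ≤ α by linarith)
    rwa [mul_neg, mul_one_div] at this
  have l8 := mul_le_mul_of_nonneg_left l1 (show 0 ≤ α - 1 by linarith)
  unfold g
  nlinarith [exp_pos (α * (log (s + exp (-40)) - log σ)), exp_pos (α * (log (s + 1) - log σ))]

theorem low {y c : ℝ} (hy : 0 < y) (h : log y ≤ c) (hc : c ≤ 2) :
    -c / 2 - 7 / 2 ≤ g (1 / 2) 1 y := by
  have h1 : exp (1 / 2 * (log y - log 1)) ≤ exp 1 := exp_le_exp.2 (by rw [log_one]; linarith)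
  have h2 := exp_one_lt_d9
  have h3 := log_two_lt_d9
  unfold g
  rw [one_div, log_inv] at *
  rw [log_one] at *
  linarith

theorem test : 6 < g (1 / 2) 1 (exp (-40) + exp (-40)) + g (1 / 2) 1 (exp (-40) + 1) +
    g (1 / 2) 1 (exp (-40) + 2) := by
  have e1 : exp (-40 : ℝ) ≤ 1 := exp_le_one_iff.2 (by norm_num)
  have e0 := exp_pos (-40)
  have a1 := low (y := exp (-40) + exp (-40)) (c := -39) (by positivity) (by
    rw [← two_mul, log_mul (by norm_num) e0.ne', log_exp]; linarith [log_two_lt_d9]) (by norm_num)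
  have a2 := low (y := exp (-40) + 1) (c := 1) (by positivity)
    (by linarith [log_le_sub_one_of_pos (show 0 < exp (-40 : ℝ) + 1 by positivity)]) (by norm_num)
  have a3 := low (y := exp (-40) + 2) (c := 2) (by positivity)
    (by linarith [log_le_sub_one_of_pos (show 0 < exp (-40 : ℝ) + 2 by positivity)]) (by norm_num)
  linarith

theorem result : ¬ ∀ (n : ℕ) (τ η : ℝ) (n₁ n₂ : ℕ) (s : Fin n₁ → ℝ) (t : Fin n₂ → ℝ),
    0 < τ → τ < η → n₁ + n₂ ≤ n → StrictMono s → StrictMono t → (∀ i, 0 < s i ∧ s i ≤ τ) →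
    (∀ i, τ < t i ∧ t i ≤ η) → n₂ ≠ 0 → 3 ≤ n₁ + n₂ →
    ∃ α θ β : ℝ, 0 < α ∧ 0 < θ ∧ 0 < β ∧ ∀ α' θ' β' : ℝ, 0 < α' → 0 < θ' → 0 < β' →
      l n τ η s t α' θ' β' ≤ l n τ η s t α θ β := by
  intro h
  have e1 : exp (-40 : ℝ) < 1 := exp_lt_one_iff.2 (by norm_num)
  have e0 := exp_pos (-40)
  obtain ⟨α, θ, β, hα, hθ, hβ, H⟩ := h 3 1 3 0 3 Fin.elim0 t0 one_pos (by norm_num) le_rfl
    (fun i => i.elim0)
    (by rw [Fin.strictMono_iff_lt_succ]; intro i; fin_cases i <;> simp [t0] <;> linarith)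
    (fun i => i.elim0)
    (by intro i; fin_cases i <;> simp [t0] <;> first | (constructor <;> linarith) | norm_num) (by norm_num) le_rfl
  rcases le_total α 1 with h1 | h1
  · have := H α (2 * θ) (2 * β) hα (by positivity) (by positivity)
    rw [l_eq hθ hβ, l_eq (by positivity) (by positivity),
      mul_div_mul_left _ _ (two_ne_zero)] at this
    have hl : 1 / (2 * β) < 1 / β := one_div_lt_one_div_of_lt hβ (by linarith)
    have p : 0 < 1 / (2 * β) := by positivity
    linarith [mono (σ := θ / β) hα h1 (add_pos p e0) (add_lt_add_left hl _),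
      mono (σ := θ / β) hα h1 (add_pos p one_pos) (add_lt_add_left hl _),
      mono (σ := θ / β) hα h1 (add_pos p two_pos) (add_lt_add_left hl _)]
  · have := H (1 / 2) (exp 40) (exp 40) (by norm_num) (exp_pos _) (exp_pos _)
    rw [l_eq hθ hβ, l_eq (exp_pos _) (exp_pos _), div_self (exp_pos _).ne', one_div (exp 40),
      ← exp_neg] at this
    linarith [test, big (σ := θ / β) h1 (one_div_pos.2 hβ)]

end Pool.Agent.Results.MP_1bbe3d_pr.Counter
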